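import Mathlib

/-!
Minimal left ideals of compact right topological semigroups, and the facts about ultrafilters on
`ℕ` and `ℕ × ℕ` used for the finite sums statement.
-/

set_option autoImplicit false

open Filter

namespace Pool.Agent.Q257.FST

attribute [local instance] Ultrafilter.add Ultrafilter.addSemigroup

section general

variable {M : Type*} [AddSemigroup M] [TopologicalSpace M] [CompactSpace M] [T2Space M]

/-- minimal closed left ideals of a closed subsemigroup `T`, inside a given closed left ideal. -/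
theorem exists_min_left_ideal (cont : ∀ r : M, Continuous (· + r)) (T J : Set M)
    (hJT : J ⊆ T) (hTs : ∀ x ∈ T, ∀ y ∈ T, x + y ∈ T)
    (hJc : IsClosed J) (hJn : J.Nonempty) (hJl : ∀ t ∈ T, ∀ j ∈ J, t + j ∈ J) :
    ∃ L : Set M, L ⊆ J ∧ IsClosed L ∧ L.Nonempty ∧ (∀ t ∈ T, ∀ j ∈ L, t + j ∈ L) ∧
      (∀ x ∈ L, ∀ z ∈ L, ∃ y ∈ L, y + x = z) := by
  let S : Set (Set M) := { N | IsClosed N ∧ N.Nonempty ∧ N ⊆ T ∧ ∀ t ∈ T, ∀ j ∈ N, t + j ∈ N }
  have hJS : J ∈ S := ⟨hJc, hJn, hJT, hJl⟩
  obtain ⟨L, hLJ, hL⟩ := zorn_superset_nonempty S (by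
    intro c hcs hc hcn
    refine ⟨⋂₀ c, ⟨isClosed_sInter fun t ht => (hcs ht).1, ?_, ?_, ?_⟩, fun s hs =>
      Set.sInter_subset_of_mem hs⟩
    · rw [Set.sInter_eq_iInter]
      have := hcn.coe_sort
      refine IsCompact.nonempty_iInter_of_directed_nonempty_isCompact_isClosed _ ?_ ?_ ?_ ?_
      · exact DirectedOn.directed_val (IsChain.directedOn hc.symm)
      · exact fun i => (hcs i.prop).2.1
      · exact fun i => (hcs i.prop).1.isCompact
      · exact fun i => (hcs i.prop).1
    · obtain ⟨s, hs⟩ := hcn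
      exact (Set.sInter_subset_of_mem hs).trans (hcs hs).2.2.1
    · intro t ht j hj
      rw [Set.mem_sInter] at hj ⊢
      exact fun s hs => (hcs hs).2.2.2 t ht j (hj s hs)) J hJS
  obtain ⟨hLc, hLn, hLT, hLl⟩ := hL.prop
  refine ⟨L, hLJ, hLc, hLn, hLl, ?_⟩
  intro x hx z hz
  have himg : (· + x) '' L = L := by
    apply hL.eq_of_subset
    · refine ⟨(cont x).isClosedMap _ hLc, ⟨_, ⟨x, hx, rfl⟩⟩, ?_, ?_⟩
      · rintro _ ⟨y, hy, rfl⟩
        exact hTs y (hLT hy) x (hLT hx)
      · rintro t ht _ ⟨y, hy, rfl⟩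
        exact ⟨t + y, hLl t ht y hy, add_assoc t y x⟩
    · rintro _ ⟨y, hy, rfl⟩
      exact hLl y (hLT hy) x hx
  rw [← himg] at hz
  obtain ⟨y, hy, h⟩ := hz
  exact ⟨y, hy, h⟩

/-- There is an idempotent in any closed left ideal `J` of `M` which is minimal among the
idempotents: if `e` is idempotent and `p + e = e` then `e + p = p`, and if `e + p = e` then
`p + e = p`. -/
theorem exists_min_idem (cont : ∀ r : M, Continuous (· + r)) (J : Set M)
    (hJc : IsClosed J) (hJn : J.Nonempty) (hJl : ∀ t, ∀ j ∈ J, t + j ∈ J) :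
    ∃ p ∈ J, p + p = p ∧ (∀ e, e + e = e → p + e = e → e + p = p) ∧
      (∀ e, e + e = e → e + p = e → p + e = p) := by
  obtain ⟨L, hLJ, hLc, hLn, hLl, hLm⟩ := exists_min_left_ideal cont Set.univ J
    (Set.subset_univ _) (fun _ _ _ _ => Set.mem_univ _) hJc hJn
    (fun t _ j hj => hJl t j hj)
  obtain ⟨p, hp, hpp⟩ := exists_idempotent_in_compact_add_subsemigroup cont L hLn hLc.isCompact
    (fun x _ y hy => hLl x (Set.mem_univ _) y hy)
  -- every idempotent below p is p
  have key : ∀ q, q + q = q → p + q = q → q + p = q → q = p := by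
    intro q hqq hpq hqp
    have hq : q ∈ L := by
      rw [← hqp]; exact hLl q (Set.mem_univ _) p hp
    obtain ⟨z, -, hz⟩ := hLm q hq p hp
    have : p + q = p := by
      rw [← hz, add_assoc, hqq]
    rw [← hpq, this]
  refine ⟨p, hLJ hp, hpp, ?_, ?_⟩
  · intro e hee hpe
    apply key
    · calc e + p + (e + p) = e + (p + e) + p := by simp only [add_assoc]
        _ = e + p := by rw [hpe, hee]
    · rw [← add_assoc, hpe]
    · rw [add_assoc, hpp]
  · intro e hee hep
    apply key
    · calc p + e + (p + e) = p + (e + p) + e := by simp only [add_assoc]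
        _ = p + e := by rw [hep, add_assoc, hee]
    · rw [← add_assoc, hpp]
    · rw [add_assoc, hep]

/-- The two-sided absorption: in a closed subsemigroup `T` containing idempotents `a`, `b` there
is an idempotent `e` with `a + e = e` and `e + b = e`. -/
theorem exists_two_sided (cont : ∀ r : M, Continuous (· + r)) (T : Set M)
    (hTc : IsClosed T) (hTs : ∀ x ∈ T, ∀ y ∈ T, x + y ∈ T) (a b : M) (ha : a ∈ T) (hb : b ∈ T)
    (haa : a + a = a) (hbb : b + b = b) :
    ∃ e ∈ T, e + e = e ∧ a + e = e ∧ e + b = e := by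
  obtain ⟨L, hLJ, hLc, hLn, hLl, hLm⟩ := exists_min_left_ideal cont T ((· + b) '' T)
    (by rintro _ ⟨y, hy, rfl⟩; exact hTs y hy b hb) hTs ((cont b).isClosedMap _ hTc)
    ⟨_, ⟨b, hb, rfl⟩⟩ (by
      rintro t ht _ ⟨y, hy, rfl⟩
      exact ⟨t + y, hTs t ht y hy, add_assoc t y b⟩)
  have hLT : L ⊆ T := by
    intro y hy
    obtain ⟨z, hz, rfl⟩ := hLJ hy
    exact hTs z hz b hb
  have hLb : ∀ y ∈ L, y + b = y := by
    intro y hy
    obtain ⟨z, hz, rfl⟩ := hLJ hy
    show z + b + b = z + b
    rw [add_assoc, hbb]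
  obtain ⟨f, hf, hff⟩ := exists_idempotent_in_compact_add_subsemigroup cont L hLn hLc.isCompact
    (fun x hx y hy => hLl x (hLT hx) y hy)
  have hx : a + f ∈ L := hLl a ha f hf
  obtain ⟨y, hy, hyx⟩ := hLm (a + f) hx f hf
  refine ⟨a + f + y, hTs _ (hLT hx) _ (hLT hy), ?_, ?_, ?_⟩
  · calc a + f + y + (a + f + y) = a + f + (y + (a + f)) + y := by simp only [add_assoc]
      _ = a + f + y := by rw [hyx, add_assoc a f f, hff]
  · rw [← add_assoc, ← add_assoc, haa]
  · rw [add_assoc, hLb y hy]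

end general

/-! ### Images of ultrafilters -/

theorem map_add {A B : Type*} [AddSemigroup A] [AddSemigroup B] (f : A → B)
    (hf : ∀ x y, f (x + y) = f x + f y) (U V : Ultrafilter A) :
    (U + V).map f = U.map f + V.map f := by
  apply Ultrafilter.coe_inj.mp
  apply Filter.ext'
  intro p
  rw [Ultrafilter.eventually_add]
  simp only [Ultrafilter.coe_map, Filter.eventually_map, Ultrafilter.eventually_add, hf]

theorem isClosed_map_eq {A B : Type*} (f : A → B) (q : Ultrafilter B) :
    IsClosed { U : Ultrafilter A | U.map f = q } := by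
  have : { U : Ultrafilter A | U.map f = q } = ⋂ s ∈ q, { U : Ultrafilter A | f ⁻¹' s ∈ U } := by
    ext U
    simp only [Set.mem_ofPred_eq, Set.mem_iInter]
    constructor
    · rintro rfl s hs
      exact hs
    · intro h
      apply Ultrafilter.coe_le_coe.mp
      intro s hs
      exact h s hs
  rw [this]
  exact isClosed_biInter fun s _ => ultrafilter_isClosed_basic _

end Pool.Agent.Q257.FST
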