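import Mathlib
import Pool.Agent.Q257.FST.Ideal

/-!
The idempotent `p` on `ℕ` and the idempotent `e` on `ℕ × ℕ`.
-/

set_option autoImplicit false

open Filter

namespace Pool.Agent.Q257.FST

attribute [local instance] Ultrafilter.add Ultrafilter.addSemigroup

theorem pure_zero_add (U : Ultrafilter ℕ) : (pure 0 : Ultrafilter ℕ) + U = U := by
  apply Ultrafilter.coe_inj.mp
  apply Filter.ext'
  intro s
  rw [Ultrafilter.eventually_add]
  simp

theorem add_pure_zero (U : Ultrafilter ℕ) : U + (pure 0 : Ultrafilter ℕ) = U := by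
  apply Ultrafilter.coe_inj.mp
  apply Filter.ext'
  intro s
  rw [Ultrafilter.eventually_add]
  simp

/-- the main ultrafilters: `p` idempotent on `ℕ`, concentrated on the positive integers, and `e`
on `ℕ × ℕ` whose images under `w`, `u`, `w + u` are `p`, with `(w + 2u)(e) + p = p` and
`p + (2w + u)(e) = p`. -/
theorem exists_pair : ∃ (p : Ultrafilter ℕ) (e : Ultrafilter (ℕ × ℕ)),
    p + p = p ∧ (∀ᶠ n in (p : Filter ℕ), 0 < n) ∧
    e.map Prod.fst = p ∧ e.map Prod.snd = p ∧ e.map (fun x => x.1 + x.2) = p ∧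
    e.map (fun x => x.1 + 2 * x.2) + p = p ∧ p + e.map (fun x => 2 * x.1 + x.2) = p := by
  -- the idempotent `p`
  obtain ⟨p, hpJ, hpp, hp1, hp2⟩ := exists_min_idem
    (M := Ultrafilter ℕ) Ultrafilter.continuous_add_left { U | {n : ℕ | 0 < n} ∈ U }
    (ultrafilter_isClosed_basic _) ⟨pure 1, Nat.one_pos⟩ (by
      intro t j hj
      show ∀ᶠ m in (((t + j : Ultrafilter ℕ)) : Filter ℕ), 0 < m
      rw [Ultrafilter.eventually_add]
      refine Filter.Eventually.of_forall fun x => ?_
      filter_upwards [hj] with y hy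
      have hy' : 0 < y := hy
      omega)
  have hp0 : p ≠ pure 0 := by
    rintro rfl
    have h : {n : ℕ | 0 < n} ∈ (pure 0 : Ultrafilter ℕ) := hpJ
    rw [Ultrafilter.mem_pure] at h
    exact absurd h (lt_irrefl 0)
  have h00 : (pure 0 : Ultrafilter ℕ) + pure 0 = pure 0 := pure_zero_add _
  have h0p : ∀ x y : Ultrafilter ℕ, (x = pure 0 ∨ x = p) → (y = pure 0 ∨ y = p) →
      (x + y = pure 0 ∨ x + y = p) := by
    rintro x y (rfl | rfl) (rfl | rfl)
    · left; exact h00
    · right; exact pure_zero_add _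
    · right; exact add_pure_zero _
    · right; exact hpp
  -- the closed semigroup `T`
  have hw : ∀ x y : ℕ × ℕ, Prod.fst (x + y) = Prod.fst x + Prod.fst y := fun _ _ => rfl
  have hu : ∀ x y : ℕ × ℕ, Prod.snd (x + y) = Prod.snd x + Prod.snd y := fun _ _ => rfl
  have hwu : ∀ x y : ℕ × ℕ, (fun x : ℕ × ℕ => x.1 + x.2) (x + y) =
      (fun x : ℕ × ℕ => x.1 + x.2) x + (fun x : ℕ × ℕ => x.1 + x.2) y := by
    intro x y
    simp only [Prod.fst_add, Prod.snd_add]
    omega
  have hl1 : ∀ x y : ℕ × ℕ, (fun x : ℕ × ℕ => x.1 + 2 * x.2) (x + y) =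
      (fun x : ℕ × ℕ => x.1 + 2 * x.2) x + (fun x : ℕ × ℕ => x.1 + 2 * x.2) y := by
    intro x y
    simp only [Prod.fst_add, Prod.snd_add]
    omega
  have hl2 : ∀ x y : ℕ × ℕ, (fun x : ℕ × ℕ => 2 * x.1 + x.2) (x + y) =
      (fun x : ℕ × ℕ => 2 * x.1 + x.2) x + (fun x : ℕ × ℕ => 2 * x.1 + x.2) y := by
    intro x y
    simp only [Prod.fst_add, Prod.snd_add]
    omega
  let T : Set (Ultrafilter (ℕ × ℕ)) :=
    { U | (U.map Prod.fst = pure 0 ∨ U.map Prod.fst = p) ∧
          (U.map Prod.snd = pure 0 ∨ U.map Prod.snd = p) ∧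
          (U.map (fun x => x.1 + x.2) = pure 0 ∨ U.map (fun x => x.1 + x.2) = p) }
  have hTc : IsClosed T := by
    have h1 : ∀ f : ℕ × ℕ → ℕ, IsClosed { U : Ultrafilter (ℕ × ℕ) |
        U.map f = pure 0 ∨ U.map f = p } := fun f =>
      (isClosed_map_eq f (pure 0)).union (isClosed_map_eq f p)
    exact (h1 _).inter ((h1 _).inter (h1 _))
  have hTs : ∀ x ∈ T, ∀ y ∈ T, x + y ∈ T := by
    rintro x ⟨hx1, hx2, hx3⟩ y ⟨hy1, hy2, hy3⟩
    refine ⟨?_, ?_, ?_⟩
    · rw [map_add _ hw]; exact h0p _ _ hx1 hy1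
    · rw [map_add _ hu]; exact h0p _ _ hx2 hy2
    · rw [map_add _ hwu]; exact h0p _ _ hx3 hy3
  let a : Ultrafilter (ℕ × ℕ) := p.map (fun x => (x, 0))
  let b : Ultrafilter (ℕ × ℕ) := p.map (fun x => (0, x))
  have haa : a + a = a := by
    show p.map (fun x => (x, 0)) + p.map (fun x => (x, 0)) = p.map (fun x => (x, 0))
    rw [← map_add _ (by intro x y; simp), hpp]
  have hbb : b + b = b := by
    show p.map (fun x => (0, x)) + p.map (fun x => (0, x)) = p.map (fun x => (0, x))
    rw [← map_add _ (by intro x y; simp), hpp]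
  have hconst : p.map (fun _ => (0 : ℕ)) = pure 0 := by
    apply Ultrafilter.coe_inj.mp
    apply Filter.ext'
    intro s
    simp
  have ha1 : a.map Prod.fst = p := by
    show (p.map (fun x => (x, 0))).map Prod.fst = p
    rw [Ultrafilter.map_map]
    exact Ultrafilter.map_id _
  have ha2 : a.map Prod.snd = pure 0 := by
    show (p.map (fun x => (x, 0))).map Prod.snd = pure 0
    rw [Ultrafilter.map_map]
    exact hconst
  have ha3 : a.map (fun x => x.1 + x.2) = p := by
    show (p.map (fun x => (x, 0))).map (fun x => x.1 + x.2) = p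
    rw [Ultrafilter.map_map]
    exact Ultrafilter.map_id _
  have ha4 : a.map (fun x => x.1 + 2 * x.2) = p := by
    show (p.map (fun x => (x, 0))).map (fun x => x.1 + 2 * x.2) = p
    rw [Ultrafilter.map_map]
    exact Ultrafilter.map_id _
  have hb1 : b.map Prod.fst = pure 0 := by
    show (p.map (fun x => (0, x))).map Prod.fst = pure 0
    rw [Ultrafilter.map_map]
    exact hconst
  have hb2 : b.map Prod.snd = p := by
    show (p.map (fun x => (0, x))).map Prod.snd = p
    rw [Ultrafilter.map_map]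
    exact Ultrafilter.map_id _
  have hb3 : b.map (fun x => x.1 + x.2) = p := by
    show (p.map (fun x => (0, x))).map (fun x => x.1 + x.2) = p
    rw [Ultrafilter.map_map]
    have : ((fun x : ℕ × ℕ => x.1 + x.2) ∘ fun x => (0, x)) = id := by
      funext x; simp
    rw [this]
    exact Ultrafilter.map_id _
  have hb4 : b.map (fun x => 2 * x.1 + x.2) = p := by
    show (p.map (fun x => (0, x))).map (fun x => 2 * x.1 + x.2) = p
    rw [Ultrafilter.map_map]
    have : ((fun x : ℕ × ℕ => 2 * x.1 + x.2) ∘ fun x => (0, x)) = id := by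
      funext x; simp
    rw [this]
    exact Ultrafilter.map_id _
  have haT : a ∈ T := ⟨Or.inr ha1, Or.inl ha2, Or.inr ha3⟩
  have hbT : b ∈ T := ⟨Or.inl hb1, Or.inr hb2, Or.inr hb3⟩
  obtain ⟨e, heT, hee, hae, heb⟩ := exists_two_sided
    (M := Ultrafilter (ℕ × ℕ)) Ultrafilter.continuous_add_left T hTc hTs a b haT hbT haa hbb
  obtain ⟨he1, he2, he3⟩ := heT
  have e1 : e.map Prod.fst = p := by
    rcases he1 with h | h
    · exfalso
      have := congrArg (Ultrafilter.map Prod.fst) hae
      rw [map_add _ hw, ha1, h, add_pure_zero] at this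
      exact hp0 this
    · exact h
  have e2 : e.map Prod.snd = p := by
    rcases he2 with h | h
    · exfalso
      have := congrArg (Ultrafilter.map Prod.snd) heb
      rw [map_add _ hu, hb2, h, pure_zero_add] at this
      exact hp0 this
    · exact h
  have e3 : e.map (fun x => x.1 + x.2) = p := by
    rcases he3 with h | h
    · exfalso
      have := congrArg (Ultrafilter.map (fun x => x.1 + x.2)) hae
      rw [map_add _ hwu, ha3, h, add_pure_zero] at this
      exact hp0 this
    · exact h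
  refine ⟨p, e, hpp, hpJ, e1, e2, e3, ?_, ?_⟩
  · apply hp1
    · rw [← map_add _ hl1, hee]
    · conv_lhs => rw [← ha4]
      rw [← map_add _ hl1, hae]
  · apply hp2
    · rw [← map_add _ hl2, hee]
    · conv_lhs => rw [← hb4]
      rw [← map_add _ hl2, heb]

end Pool.Agent.Q257.FST
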