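import Mathlib
import Pool.Agent.Q257.FST.Pair

/-!
The recursive choice of the sequence.
-/

set_option autoImplicit false

open Filter

namespace Pool.Agent.Q257.FST

attribute [local instance] Ultrafilter.add Ultrafilter.addSemigroup

/-- the states of the recursion. -/
structure St where
  S : Finset ℕ
  v1 : ℕ
  v2 : ℕ
  v3 : ℕ

/-- the next state, after the choice of the pair `x = (w, u)`. -/
def St.next (s : St) (x : ℕ × ℕ) : St where
  S := s.S ∪ s.S.image (· + x.1) ∪ s.S.image (· + x.2) ∪ s.S.image (· + (x.1 + x.2))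
  v1 := x.1
  v2 := s.v1 + (2 * x.1 + x.2)
  v3 := s.v2 + (x.1 + 2 * x.2)

theorem main_seq (A : ℕ → Prop) (p : Ultrafilter ℕ) (e : Ultrafilter (ℕ × ℕ))
    (hpp : p + p = p) (hpos : ∀ᶠ n in (p : Filter ℕ), 0 < n)
    (e1 : e.map Prod.fst = p) (e2 : e.map Prod.snd = p) (e3 : e.map (fun x => x.1 + x.2) = p)
    (h1 : e.map (fun x => x.1 + 2 * x.2) + p = p) (h2 : p + e.map (fun x => 2 * x.1 + x.2) = p)
    (hA : ∀ᶠ n in (p : Filter ℕ), A n) :
    ∃ y : ℕ → ℕ, (∀ n, 0 < y n) ∧ (∀ s : Finset ℕ, s.Nonempty → A (∑ i ∈ s, y i)) ∧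
      (∀ n : ℕ, A (y n + 2 * y (n + 1) + y (n + 2))) := by
  -- the star set
  let As : ℕ → Prop := fun s => A s ∧ ∀ᶠ t in (p : Filter ℕ), A (s + t)
  have hidem : ∀ P : ℕ → Prop, (∀ᶠ n in (p : Filter ℕ), P n) →
      ∀ᶠ s in (p : Filter ℕ), ∀ᶠ t in (p : Filter ℕ), P (s + t) := by
    intro P hP
    have hP' : ∀ᶠ n in ((p + p : Ultrafilter ℕ) : Filter ℕ), P n := by rw [hpp]; exact hP
    rwa [Ultrafilter.eventually_add] at hP'
  have hAs : ∀ᶠ s in (p : Filter ℕ), As s := hA.and (hidem A hA)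
  have hAs2 : ∀ s, As s → ∀ᶠ t in (p : Filter ℕ), As (s + t) := by
    intro s hs
    have h3 := hidem (fun t => A (s + t)) hs.2
    filter_upwards [hs.2, h3] with t ht1 ht2
    refine ⟨ht1, ?_⟩
    filter_upwards [ht2] with r hr
    rwa [add_assoc]
  -- the sets of good values
  let D : ℕ → Prop := fun s => ∀ᶠ t in (p : Filter ℕ), As (s + t)
  let C : ℕ → Prop := fun s => ∀ᶠ x in (e : Filter (ℕ × ℕ)), As (s + (2 * x.1 + x.2))
  let B : ℕ → Prop := fun s => ∀ᶠ t in (p : Filter ℕ), A (s + t)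
  have hC : ∀ᶠ s in (p : Filter ℕ), C s := by
    have hAs' : ∀ᶠ n in ((p + e.map (fun x => 2 * x.1 + x.2) : Ultrafilter ℕ) : Filter ℕ),
        As n := by rw [h2]; exact hAs
    rw [Ultrafilter.eventually_add] at hAs'
    exact hAs'
  have hB : ∀ s, B s → ∀ᶠ x in (e : Filter (ℕ × ℕ)), B (s + (x.1 + 2 * x.2)) := by
    intro s hs
    have hs' : ∀ᶠ n in ((e.map (fun x => x.1 + 2 * x.2) + p : Ultrafilter ℕ) : Filter ℕ),
        A (s + n) := by rw [h1]; exact hs
    rw [Ultrafilter.eventually_add] at hs'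
    have hs'' : ∀ᶠ x in (e : Filter (ℕ × ℕ)), ∀ᶠ t in (p : Filter ℕ),
        A (s + ((x.1 + 2 * x.2) + t)) := hs'
    filter_upwards [hs''] with x hx
    filter_upwards [hx] with t ht
    rwa [add_assoc]
  have pf : ∀ P : ℕ → Prop, (∀ᶠ n in (p : Filter ℕ), P n) →
      ∀ᶠ x in (e : Filter (ℕ × ℕ)), P x.1 := by
    intro P hP
    rw [← e1] at hP
    exact hP
  have ps : ∀ P : ℕ → Prop, (∀ᶠ n in (p : Filter ℕ), P n) →
      ∀ᶠ x in (e : Filter (ℕ × ℕ)), P x.2 := by
    intro P hP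
    rw [← e2] at hP
    exact hP
  have pfs : ∀ P : ℕ → Prop, (∀ᶠ n in (p : Filter ℕ), P n) →
      ∀ᶠ x in (e : Filter (ℕ × ℕ)), P (x.1 + x.2) := by
    intro P hP
    rw [← e3] at hP
    exact hP
  let Good : St → Prop := fun s => (∀ n ∈ s.S, D n) ∧ C s.v1 ∧ As s.v2 ∧ B s.v3
  let Step : St → ℕ × ℕ → Prop := fun s x => Good (s.next x) ∧ 0 < x.1 ∧ 0 < x.2 ∧
    (∀ n ∈ s.S, A (n + x.2)) ∧ A (s.v3 + x.2)
  have hstep : ∀ s : St, Good s → ∃ x, Step s x := by
    rintro s ⟨hs1, hs2, hs3, hs4⟩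
    have c1 : ∀ᶠ x in (e : Filter (ℕ × ℕ)), ∀ n ∈ s.S, As (n + x.1) := by
      rw [Filter.eventually_all_finset]
      exact fun n hn => pf _ (hs1 n hn)
    have c2 : ∀ᶠ x in (e : Filter (ℕ × ℕ)), ∀ n ∈ s.S, As (n + x.2) := by
      rw [Filter.eventually_all_finset]
      exact fun n hn => ps _ (hs1 n hn)
    have c3 : ∀ᶠ x in (e : Filter (ℕ × ℕ)), ∀ n ∈ s.S, As (n + (x.1 + x.2)) := by
      rw [Filter.eventually_all_finset]
      exact fun n hn => pfs _ (hs1 n hn)
    have c4 : ∀ᶠ x in (e : Filter (ℕ × ℕ)), C x.1 := pf _ hC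
    have c5 : ∀ᶠ x in (e : Filter (ℕ × ℕ)), As (s.v1 + (2 * x.1 + x.2)) := hs2
    have c6 : ∀ᶠ x in (e : Filter (ℕ × ℕ)), B (s.v2 + (x.1 + 2 * x.2)) := hB _ hs3.2
    have c7 : ∀ᶠ x in (e : Filter (ℕ × ℕ)), A (s.v3 + x.2) := ps _ hs4
    have c8 : ∀ᶠ x in (e : Filter (ℕ × ℕ)), 0 < x.1 := pf _ hpos
    have c9 : ∀ᶠ x in (e : Filter (ℕ × ℕ)), 0 < x.2 := ps _ hpos
    obtain ⟨x, d1, d2, d3, d4, d5, d6, d7, d8, d9⟩ :=
      (c1.and (c2.and (c3.and (c4.and (c5.and (c6.and (c7.and (c8.and c9)))))))).exists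
    refine ⟨x, ⟨?_, d4, d5, d6⟩, d8, d9, fun n hn => (d2 n hn).1, d7⟩
    intro n hn
    simp only [St.next, Finset.mem_union, Finset.mem_image] at hn
    rcases hn with ((hn | ⟨m, hm, rfl⟩) | ⟨m, hm, rfl⟩) | ⟨m, hm, rfl⟩
    · exact hs1 n hn
    · exact hAs2 _ (d1 m hm)
    · exact hAs2 _ (d2 m hm)
    · exact hAs2 _ (d3 m hm)
  -- the initial state
  obtain ⟨c0, hc0⟩ := hC.exists
  obtain ⟨a0, ha0⟩ := hAs.exists
  let s0 : St := ⟨{0}, c0, a0, a0⟩
  have hs0 : Good s0 := by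
    refine ⟨?_, hc0, ha0, ha0.2⟩
    intro n hn
    have hn' : n = 0 := by simpa [s0] using hn
    subst hn'
    filter_upwards [hAs] with t ht
    rwa [zero_add]
  choose! f hf using hstep
  let st : ℕ → St := fun n => Nat.rec s0 (fun _ s => s.next (f s)) n
  have st0 : st 0 = s0 := rfl
  have sts : ∀ n, st (n + 1) = (st n).next (f (st n)) := fun n => rfl
  have good : ∀ n, Good (st n) := by
    intro n
    induction n with
    | zero => exact hs0
    | succ n ih => rw [sts]; exact (hf _ ih).1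
  let w : ℕ → ℕ := fun n => (f (st n)).1
  let u : ℕ → ℕ := fun n => (f (st n)).2
  have hw : ∀ n, 0 < w n := fun n => (hf _ (good n)).2.1
  have hSu : ∀ n, ∀ m ∈ (st n).S, A (m + u n) := fun n => (hf _ (good n)).2.2.2.1
  have hvu : ∀ n, A ((st n).v3 + u n) := fun n => (hf _ (good n)).2.2.2.2
  have v1s : ∀ n, (st (n + 1)).v1 = w n := fun n => rfl
  have v2s : ∀ n, (st (n + 1)).v2 = (st n).v1 + (2 * w n + u n) := fun n => rfl
  have v3s : ∀ n, (st (n + 1)).v3 = (st n).v2 + (w n + 2 * u n) := fun n => rfl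
  have Ss : ∀ n, (st (n + 1)).S = (st n).S ∪ (st n).S.image (· + w n) ∪
      (st n).S.image (· + u n) ∪ (st n).S.image (· + (w n + u n)) := fun n => rfl
  refine ⟨fun n => w n + u (n + 1), fun n => ?_, ?_, ?_⟩
  · exact Nat.lt_of_lt_of_le (hw n) (Nat.le_add_right _ _)
  · -- finite sums
    intro F hF
    -- partial sums
    have part : ∀ m, (∑ i ∈ Finset.range m, (if i ∈ F then w i else 0)) +
        (∑ i ∈ Finset.range (m - 1), (if i ∈ F then u (i + 1) else 0)) ∈ (st m).S := by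
      intro m
      induction m with
      | zero => simp [st0, s0]
      | succ m ih =>
        rw [Finset.sum_range_succ, Ss]
        simp only [Finset.mem_union, Finset.mem_image]
        rcases m with _ | m
        · simp only [Finset.range_zero, Finset.sum_empty, zero_add]
          have h0 : (0 : ℕ) ∈ (st 0).S := by simp [st0, s0]
          by_cases h : 0 ∈ F
          · rw [if_pos h]
            exact Or.inl (Or.inl (Or.inr ⟨0, h0, by simp⟩))
          · rw [if_neg h]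
            exact Or.inl (Or.inl (Or.inl h0))
        · simp only [Nat.add_sub_cancel] at ih ⊢
          rw [Finset.sum_range_succ (fun i => if i ∈ F then u (i + 1) else 0) m]
          by_cases ha : m + 1 ∈ F
          · by_cases hb : m ∈ F
            · rw [if_pos ha, if_pos hb]
              exact Or.inr ⟨_, ih, by omega⟩
            · rw [if_pos ha, if_neg hb]
              exact Or.inl (Or.inl (Or.inr ⟨_, ih, by omega⟩))
          · by_cases hb : m ∈ F
            · rw [if_neg ha, if_pos hb]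
              exact Or.inl (Or.inr ⟨_, ih, by omega⟩)
            · rw [if_neg ha, if_neg hb]
              exact Or.inl (Or.inl (Or.inl (by simpa using ih)))
    have hM : F.max' hF ∈ F := F.max'_mem hF
    generalize hMdef : F.max' hF = M at hM
    have hFM : F ⊆ Finset.range (M + 1) := by
      intro i hi
      rw [Finset.mem_range, ← hMdef]
      exact Nat.lt_succ_of_le (F.le_max' i hi)
    have e5 : ∑ i ∈ F, (w i + u (i + 1)) =
        (∑ i ∈ Finset.range (M + 1), (if i ∈ F then w i else 0)) +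
        (∑ i ∈ Finset.range (M + 1 - 1), (if i ∈ F then u (i + 1) else 0)) + u (M + 1) := by
      have e6 : ∑ i ∈ F, (w i + u (i + 1)) =
          ∑ i ∈ Finset.range (M + 1), (if i ∈ F then (w i + u (i + 1)) else 0) := by
        rw [← Finset.sum_filter]
        apply Finset.sum_congr
        · ext i
          simp only [Finset.mem_filter]
          exact ⟨fun h => ⟨hFM h, h⟩, fun h => h.2⟩
        · intros; rfl
      have e7 : ∑ i ∈ Finset.range (M + 1), (if i ∈ F then (w i + u (i + 1)) else 0) =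
          (∑ i ∈ Finset.range (M + 1), (if i ∈ F then w i else 0)) +
          (∑ i ∈ Finset.range (M + 1), (if i ∈ F then u (i + 1) else 0)) := by
        rw [← Finset.sum_add_distrib]
        apply Finset.sum_congr rfl
        intro i _
        split_ifs <;> rfl
      rw [e6, e7, Nat.add_sub_cancel,
        Finset.sum_range_succ (fun i => if i ∈ F then u (i + 1) else 0) M, if_pos hM, ← add_assoc]
    show A (∑ i ∈ F, (w i + u (i + 1)))
    rw [e5]
    exact hSu (M + 1) _ (part (M + 1))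
  · intro n
    have := hvu (n + 2 + 1)
    rw [v3s (n + 2), v2s (n + 1), v1s n] at this
    have e4 : (fun n => w n + u (n + 1)) n + 2 * (fun n => w n + u (n + 1)) (n + 1) +
        (fun n => w n + u (n + 1)) (n + 2) =
        w n + (2 * w (n + 1) + u (n + 1)) + (w (n + 2) + 2 * u (n + 2)) + u (n + 2 + 1) := by
      show w n + u (n + 1) + 2 * (w (n + 1) + u (n + 1 + 1)) + (w (n + 2) + u (n + 2 + 1)) = _
      simp only [add_assoc]
      norm_num
      ring
    rw [e4]
    exact this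

theorem main (k : ℕ) (c : ℕ → Fin k) : ∃ y : ℕ → ℕ, (∀ n, 0 < y n) ∧
      ∃ col : Fin k,
        (∀ s : Finset ℕ, s.Nonempty → c (∑ i ∈ s, y i) = col) ∧
        (∀ n : ℕ, c (y n + 2 * y (n + 1) + y (n + 2)) = col) := by
  obtain ⟨p, e, hpp, hpos, e1, e2, e3, h1, h2⟩ := exists_pair
  have hcol : ∃ col : Fin k, ∀ᶠ n in (p : Filter ℕ), c n = col := by
    have := (Ultrafilter.eventually_exists_iff (f := p)
      (P := fun (col : Fin k) (n : ℕ) => c n = col)).mp
      (Filter.Eventually.of_forall fun n => ⟨c n, rfl⟩)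
    exact this
  obtain ⟨col, hcol⟩ := hcol
  obtain ⟨y, hy, hs, hT⟩ := main_seq (fun n => c n = col) p e hpp hpos e1 e2 e3 h1 h2 hcol
  exact ⟨y, hy, col, hs, hT⟩

end Pool.Agent.Q257.FST
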